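import Mathlib
import Pool.Agent.H76.Planar.ABFP

/-!
# Products of conjugacy classes under Kervaire extensions: abelian-by-(finite `p`) coefficients

Let `G` be any group and `C` a subgroup with an abelian normal subgroup `A` such that `C/A` is a
finite `p`-group, and let `w_1, …, w_n` be any system over `G` with coefficients in `C` whose
determinant is not divisible by `p`.  Then the Kervaire extension
`G → H = (G * F_n)/⟨⟨w_1, …, w_n⟩⟩` reflects all product-one relations between conjugacy classes of
elements of `G` (Q1 of MP_9999b4_al for these systems, all `G`, all `r`).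

Proof idea for `C = G` (`Pool/Agent/H30/Kerv`).  Let `F → C` be a free cover, `R` the preimage of
`A` and `Γ = F/[R, R]`, which is (free abelian)-by-(finite `p`).  Over a finite `p`-group every
system whose determinant is prime to `p` has a solution, so product-one relations of the Kervaire
extension of `Γ` hold in all `Γ/(R/[R,R])^(p^k)`, hence in `Γ`, because products of conjugacy
classes of `Γ` are closed in the topology given by these quotients.  A product-one relation over `C`
lifts to one over `Γ` after adding finitely many classes from the kernel of `Γ → C`, which disappear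
in `C`.  The passage to arbitrary `G` is the stability theorem of `Pool/Agent/H76/Planar` (planar
decompositions of products of conjugates in free products).
-/

set_option autoImplicit false

namespace Pool.Agent.Results.MP_9999b4_al.AbelianByFiniteP

open Monoid Pool.Agent.H76.Planar

universe u

/-- Let `p` be a prime, `G` any group, `C` a subgroup of `G` and `A ≤ C` a commutative subgroup,
normal in `C` and of index a power of `p` in `C`.  Let `w_1, …, w_n ∈ G * F_n` be a system with
`p ∤ det (η_i (w_j))` whose coefficients lie in `C`, that is, every `w_j` lies in the subgroup of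
`G * F_n` generated by `C` and `F_n` (`hw`).  Then a product-one relation between `H`-conjugates of
(the images of) elements `g_1, …, g_r` of `G`, where `H = (G * F_n)/⟨⟨w_1, …, w_n⟩⟩`, implies a
product-one relation between `G`-conjugates of `g_1, …, g_r`. -/
theorem result (p : ℕ) (hp : p.Prime) (G : Type u) [Group G] (C A : Subgroup G) (_hAC : A ≤ C)
    (hAn : ∀ c ∈ C, ∀ a ∈ A, c * a * c⁻¹ ∈ A)
    (hA : ∀ a ∈ A, ∀ b ∈ A, a * b = b * a) (e : ℕ) (hcard : A.relIndex C = p ^ e)
    (n : ℕ) (w : Fin n → Coprod G (FreeGroup (Fin n)))
    (hw : ∀ j, w j ∈ Subgroup.closure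
      ((fun g : G => (Coprod.inl g : Coprod G (FreeGroup (Fin n)))) '' (C : Set G) ∪
        Set.range (fun k : Fin n => (Coprod.inr (FreeGroup.of k) : Coprod G (FreeGroup (Fin n))))))
    (hdet : ¬ (p : ℤ) ∣ (Matrix.of (fun i j : Fin n => Multiplicative.toAdd
        (Coprod.lift (1 : G →* Multiplicative ℤ)
          (FreeGroup.lift (fun k : Fin n =>
            if k = i then Multiplicative.ofAdd (1 : ℤ) else 1)) (w j)))).det)
    (r : ℕ) (g : Fin r → G)
    (hH : ∃ h : Fin r → (Coprod G (FreeGroup (Fin n)) ⧸ Subgroup.normalClosure (Set.range w)),
      (List.ofFn (fun i => h i *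
        QuotientGroup.mk' (Subgroup.normalClosure (Set.range w)) (Coprod.inl (g i)) *
          (h i)⁻¹)).prod = 1) :
    ∃ x : Fin r → G, (List.ofFn (fun i => x i * g i * (x i)⁻¹)).prod = 1 := by
  have hn : (A.subgroupOf C).Normal := by
    constructor
    intro a ha c
    rw [Subgroup.mem_subgroupOf] at ha ⊢
    exact hAn c c.2 a ha
  have hq := abfp_QP p hp (A.subgroupOf C) (fun a ha b hb => Subtype.ext (hA a ha b hb)) e hcard
  refine (coeff_cons C.subtype hq w hdet fun j => ?_).final r g hH
  have h1 := hw j
  rwa [← C.range_subtype] at h1

end Pool.Agent.Results.MP_9999b4_al.AbelianByFiniteP
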