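import Mathlib
import Pool.Agent.H76.Planar.Flat

/-!
# Products of conjugacy classes under Kervaire extensions: two arbitrary classes

Q1 of MP_9999b4_al for tuples `(a, b, g_1, …, g_r)` in an arbitrary group `G` in which `a, b` are
arbitrary and the product of the classes of the `g_i` is a coset of a normal subgroup `N` (for
example: all `g_i` central, or every class `g_i^G` a coset of a normal subgroup, or `r = 0` and
`N = 1`), for nonsingular systems with coefficients in a subgroup `C` whose image in `G/N` is
conjugacy separable, or more generally has enough finite quotients or finite-dimensional unitary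
representations to separate the `G/N`-classes of its elements.

The proof is in `Pool/Agent/H76/`: the Gerstenhaber–Rothaus theorem for unitary groups of
finite-dimensional C*-algebras (`GR/`), applied in the commutant of the centre of `C/N`; the calculus
of planar decompositions (`Planar/Rules`, `Planar/Surg`, `Planar/Del`, `Planar/Free`), in the refined
form `extract2`, `stab2` of `Planar/Cent` which keeps track of the number of non-central boundary
classes of each piece.
-/

set_option autoImplicit false

namespace Pool.Agent.Results.MP_9999b4_al.AllButTwo

open Monoid Pool.Agent.H76.Planar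

universe u

/-- Let `G` be any group, `w_1, …, w_n` a nonsingular system over `G` (`hdet`, as in the frozen
statement) with coefficients in a subgroup `C` (`hw`), and let `a, b, g_1, …, g_r` be elements of
`G` such that the product of the conjugacy classes of `g_1, …, g_r` is the coset `(g_1 ⋯ g_r) N` of
a normal subgroup `N` (`hg`).  Suppose that any two elements `x, y` of the image of `C` in `G/N`
which are conjugate in every finite quotient of this image, and under every finite-dimensional
unitary representation of it, are conjugate in `G/N` (`hsep`).  Then a product-one relation between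
`H`-conjugates of `a, b, g_1, …, g_r`, where `H = (G * F_n)/⟨⟨w_1, …, w_n⟩⟩`, implies a product-one
relation between `G`-conjugates of these elements. -/
theorem result (G : Type u) [Group G] (n : ℕ)
    (w : Fin n → Coprod G (FreeGroup (Fin n)))
    (hdet : (Matrix.of (fun i j : Fin n => Multiplicative.toAdd
        (Coprod.lift (1 : G →* Multiplicative ℤ)
          (FreeGroup.lift (fun k : Fin n =>
            if k = i then Multiplicative.ofAdd (1 : ℤ) else 1)) (w j)))).det ≠ 0)
    (C : Subgroup G)
    (hw : ∀ j, w j ∈ Subgroup.closure
      ((fun c : G => (Coprod.inl c : Coprod G (FreeGroup (Fin n)))) '' (C : Set G) ∪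
        Set.range (fun k : Fin n => (Coprod.inr (FreeGroup.of k) :
          Coprod G (FreeGroup (Fin n))))))
    (N : Subgroup G) [N.Normal]
    (hsep : ∀ x y : C.map (QuotientGroup.mk' N),
      (∀ (M : Subgroup (C.map (QuotientGroup.mk' N))) (_ : M.Normal), M.FiniteIndex →
        IsConj (QuotientGroup.mk' M x) (QuotientGroup.mk' M y)) →
      (∀ (k : ℕ) (ρ : C.map (QuotientGroup.mk' N) →* Matrix.unitaryGroup (Fin k) ℂ),
        IsConj (ρ x) (ρ y)) →
      IsConj (x : G ⧸ N) (y : G ⧸ N))
    (a b : G) (r : ℕ) (g : Fin r → G)
    (hg : ∀ x : G, (∃ y : Fin r → G, x = (List.ofFn fun i => y i * g i * (y i)⁻¹).prod) ↔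
      (List.ofFn g).prod⁻¹ * x ∈ N)
    (hH : ∃ (p q : Coprod G (FreeGroup (Fin n)) ⧸ Subgroup.normalClosure (Set.range w))
        (h : Fin r → (Coprod G (FreeGroup (Fin n)) ⧸ Subgroup.normalClosure (Set.range w))),
      p * QuotientGroup.mk' (Subgroup.normalClosure (Set.range w)) (Coprod.inl a) * p⁻¹ *
        (q * QuotientGroup.mk' (Subgroup.normalClosure (Set.range w)) (Coprod.inl b) * q⁻¹) *
        (List.ofFn (fun i => h i *
          QuotientGroup.mk' (Subgroup.normalClosure (Set.range w)) (Coprod.inl (g i)) *
            (h i)⁻¹)).prod = 1) :
    ∃ (p q : G) (y : Fin r → G), p * a * p⁻¹ * (q * b * q⁻¹) *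
      (List.ofFn (fun i => y i * g i * (y i)⁻¹)).prod = 1 :=
  flat_final w hdet C hw N hsep a b r g hg hH

end Pool.Agent.Results.MP_9999b4_al.AllButTwo
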