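import Mathlib
import Pool.Agent.H76.Planar.Tower

/-!
# Products of conjugacy classes under Kervaire extensions: towers of class-two systems

For an arbitrary group `G` and a nonsingular system over `G` which can be sorted into levels such
that at every level either the coefficients generate a group of nilpotency class at most two modulo
the lower levels, or there is a single equation which is a positive word, the Kervaire extension
`G → H` reflects all product-one relations between conjugacy classes of elements of `G` (Q1 of
MP_9999b4_al for these systems, all `G`, all `r`).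

The proof is in `Pool/Agent/H76/`.  Ingredients:
* `GR/`: the Gerstenhaber–Rothaus theorem (every nonsingular system over the unitary group of a
  finite-dimensional C*-algebra is solvable in it), by a Haar/Stokes degree argument;
* `Ker/`: Q1 for groups of class at most two (central relations are detected in the unitary group
  of the group algebra of finite quotients; classes are cosets of central subgroups);
* `Planar/`: a calculus of planar decompositions of products of conjugates in free products, which
  gives the stability theorem `Cons.stab`: Q1 for the coefficient group `C` implies Q1 for systems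
  with coefficients from `C` over every group `G`;
* Levin's solution of positive equations over the constants of a wreath product.
-/

set_option autoImplicit false

namespace Pool.Agent.Results.MP_9999b4_al.ClassTwoTower

open Monoid Pool.Agent.H76.Planar
open scoped commutatorElement

universe u

/-- Let `G` be any group and `w_1, …, w_n` a nonsingular system over `G` (`hdet`, as in the frozen
statement).  The variables `t_i` and the equations `w_i` have levels `β i`.  For every level `b`
let `A b` be a subgroup of `⟨G, t_k : β k < b⟩` (`hA1`) which has nilpotency class at most two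
modulo the equations of level below `b` (`hA2`), and let `c_i, d_i` be elements of
`⟨G, t_k : β k < β i⟩` (`hc`, `hd`).  Assume (`hw`) that every equation `w_j` is conjugate in
`G * F_n` (by `u j`)
* either to an element of the subgroup generated by `A (β j)` and the elements `c_i t_i d_i` with
  `β i = β j`,
* or, if `t_j` is the only variable of its level, to a nonempty product of factors `a t_j ^ ε` with
  `a` in `⟨G, t_k : β k < β j⟩` and a fixed sign `ε`.
Then a product-one relation between `H`-conjugates of elements `g_1, …, g_r` of `G`, where
`H = (G * F_n)/⟨⟨w_1, …, w_n⟩⟩`, implies a product-one relation between `G`-conjugates. -/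
theorem result (G : Type u) [Group G] (n : ℕ)
    (w : Fin n → Coprod G (FreeGroup (Fin n)))
    (hdet : (Matrix.of (fun i j : Fin n => Multiplicative.toAdd
        (Coprod.lift (1 : G →* Multiplicative ℤ)
          (FreeGroup.lift (fun k : Fin n =>
            if k = i then Multiplicative.ofAdd (1 : ℤ) else 1)) (w j)))).det ≠ 0)
    (β : Fin n → ℕ)
    (A : ℕ → Subgroup (Coprod G (FreeGroup (Fin n))))
    (hA1 : ∀ b, A b ≤ Subgroup.closure
      (Set.range (fun g : G => (Coprod.inl g : Coprod G (FreeGroup (Fin n)))) ∪
        (fun k : Fin n => (Coprod.inr (FreeGroup.of k) : Coprod G (FreeGroup (Fin n)))) ''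
          {k | β k < b}))
    (hA2 : ∀ b, ∀ x ∈ A b, ∀ y ∈ A b, ∀ z ∈ A b,
      ⁅⁅x, y⁆, z⁆ ∈ Subgroup.normalClosure {z | ∃ j, β j < b ∧ z = w j})
    (c d : Fin n → Coprod G (FreeGroup (Fin n)))
    (hc : ∀ i, c i ∈ Subgroup.closure
      (Set.range (fun g : G => (Coprod.inl g : Coprod G (FreeGroup (Fin n)))) ∪
        (fun k : Fin n => (Coprod.inr (FreeGroup.of k) : Coprod G (FreeGroup (Fin n)))) ''
          {k | β k < β i}))
    (hd : ∀ i, d i ∈ Subgroup.closure
      (Set.range (fun g : G => (Coprod.inl g : Coprod G (FreeGroup (Fin n)))) ∪
        (fun k : Fin n => (Coprod.inr (FreeGroup.of k) : Coprod G (FreeGroup (Fin n)))) ''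
          {k | β k < β i}))
    (u : Fin n → Coprod G (FreeGroup (Fin n)))
    (hw : ∀ j, u j * w j * (u j)⁻¹ ∈ Subgroup.closure
        ((A (β j) : Set (Coprod G (FreeGroup (Fin n)))) ∪
          {z | ∃ i, β i = β j ∧ z = c i * Coprod.inr (FreeGroup.of i) * d i}) ∨
      ((∀ i, β i = β j → i = j) ∧
        ∃ (ε : ℤˣ) (L : List (Coprod G (FreeGroup (Fin n)))), L ≠ [] ∧
          (∀ a ∈ L, a ∈ Subgroup.closure
            (Set.range (fun g : G => (Coprod.inl g : Coprod G (FreeGroup (Fin n)))) ∪
              (fun k : Fin n => (Coprod.inr (FreeGroup.of k) : Coprod G (FreeGroup (Fin n)))) ''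
                {k | β k < β j})) ∧
          u j * w j * (u j)⁻¹ = (L.map fun a => a *
            (Coprod.inr (FreeGroup.of j) : Coprod G (FreeGroup (Fin n))) ^ (ε : ℤ)).prod))
    (r : ℕ) (g : Fin r → G)
    (hH : ∃ h : Fin r → (Coprod G (FreeGroup (Fin n)) ⧸ Subgroup.normalClosure (Set.range w)),
      (List.ofFn (fun i => h i *
        QuotientGroup.mk' (Subgroup.normalClosure (Set.range w)) (Coprod.inl (g i)) *
          (h i)⁻¹)).prod = 1) :
    ∃ x : Fin r → G, (List.ofFn (fun i => x i * g i * (x i)⁻¹)).prod = 1 :=
  (tower w hdet β A hA1 hA2 c d hc hd u hw).final r g hH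

end Pool.Agent.Results.MP_9999b4_al.ClassTwoTower
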