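import Mathlib
import Pool.Agent.H76.Planar.Apply

/-!
# Products of conjugacy classes under Kervaire extensions: coefficient groups with an abelian
# normal subgroup of prime index

Let `G` be an arbitrary group and `C` a subgroup of `G` which has an abelian normal subgroup `A` of
prime index.  For every nonsingular system over `G` with coefficients in `C` (any number of
variables, any nonzero determinant) the Kervaire extension `G → H` reflects all product-one
relations between conjugacy classes of elements of `G` (Q1 of MP_9999b4_al for this class of
systems, all `G`, all `r`).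

The proof is in `Pool/Agent/H76/`.  Idea for `G = C` (`Ker/`): pass to a torsion-free cover
`ℤ^(Ω) ⋊ ℤ`; extend a faithful character of `C / A` to a character `χ` of `H` of `p`-power order
whose twisted Fox matrix is nonsingular (it exists by a norm argument in the group ring of the
`p`-part of the relation lattice), which gives an affine representation of `H` over `ℂ`; compare
the coefficients of `p`-power roots of unity, using the trivial character for the remaining
relation.  The passage from `C` to `G` (`Planar/`) is a stability theorem proved with a calculus of
planar decompositions of products of conjugates in free products.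
-/

set_option autoImplicit false

namespace Pool.Agent.Results.MP_9999b4_al.PrimeIndex

open Monoid Pool.Agent.H76.Ker Pool.Agent.H76.Planar

universe u

/-- Let `G` be any group, `C` a subgroup of `G` and `A ≤ C` a commutative subgroup, normal in `C`
and of prime index in `C`.  Let `w_1, …, w_n` be a nonsingular system over `G` (`hdet`, as in the
frozen statement) whose coefficients lie in `C`, that is, every `w_j` lies in the subgroup of
`G * F_n` generated by `C` and `F_n` (`hw`).  With `H = (G * F_n)/⟨⟨w_1, …, w_n⟩⟩`, a product-one
relation between `H`-conjugates of elements `g_1, …, g_r` of `G` implies a product-one relation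
between `G`-conjugates. -/
theorem result (G : Type u) [Group G] (C A : Subgroup G) (_hAC : A ≤ C)
    (hAn : ∀ c ∈ C, ∀ a ∈ A, c * a * c⁻¹ ∈ A)
    (hA : ∀ a ∈ A, ∀ b ∈ A, a * b = b * a) (hp : (A.relIndex C).Prime) (n : ℕ)
    (w : Fin n → Coprod G (FreeGroup (Fin n)))
    (hw : ∀ j, w j ∈ Subgroup.closure
      ((fun g : G => (Coprod.inl g : Coprod G (FreeGroup (Fin n)))) '' (C : Set G) ∪
        Set.range (fun k : Fin n => (Coprod.inr (FreeGroup.of k) : Coprod G (FreeGroup (Fin n))))))
    (hdet : (Matrix.of (fun i j : Fin n => Multiplicative.toAdd
        (Coprod.lift (1 : G →* Multiplicative ℤ)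
          (FreeGroup.lift (fun k : Fin n =>
            if k = i then Multiplicative.ofAdd (1 : ℤ) else 1)) (w j)))).det ≠ 0)
    (r : ℕ) (g : Fin r → G)
    (hH : ∃ h : Fin r → (Coprod G (FreeGroup (Fin n)) ⧸ Subgroup.normalClosure (Set.range w)),
      (List.ofFn (fun i => h i *
        QuotientGroup.mk' (Subgroup.normalClosure (Set.range w)) (Coprod.inl (g i)) *
          (h i)⁻¹)).prod = 1) :
    ∃ x : Fin r → G, (List.ofFn (fun i => x i * g i * (x i)⁻¹)).prod = 1 := by
  have hn : (A.subgroupOf C).Normal := by
    constructor
    intro a ha c
    rw [Subgroup.mem_subgroupOf] at ha ⊢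
    exact hAn c c.2 a ha
  have hq : ∀ m, QK C m Set.univ := fun m => prime_QK (A.subgroupOf C)
    (fun a ha b hb => Subtype.ext (hA a ha b hb)) hp m
  refine (coeff_cons C.subtype (QP_of_QK hq) w hdet fun j => ?_).final r g hH
  have h1 := hw j
  rwa [← C.range_subtype] at h1

end Pool.Agent.Results.MP_9999b4_al.PrimeIndex
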